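import Mathlib
import Pool.Agent.Lib.MP_b03b3a_al.Mfd

set_option autoImplicit false

open Pool.Agent.Lib.MP_b03b3a_al

namespace Pool.Agent.Results.MP_b03b3a_al.ClosedManifold

/-- A closed 4-manifold `M`, its universal cover `p : X → M` with the fundamental group of `M`
acting as the deck group, a cube complex structure with flag links on `X` preserved by this action,
and an element `g ≠ 1` of the fundamental group whose stable centraliser is infinite cyclic although
`g` is not a rank-one isometry of `X`. -/
theorem result :
    ∃ (M : Type) (_ : TopologicalSpace M) (m : M) (H X : Type) (_ : MetricSpace X)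
      (_ : MulAction (FundamentalGroup M m) X) (p : X → M)
      (K : Set ((H → Bool) × Finset H)) (ι : X → H → ℝ) (g : FundamentalGroup M m),
      CompactSpace M ∧ T2Space M ∧ Nonempty (ChartedSpace (EuclideanSpace ℝ (Fin 4)) M) ∧
      IsQuotientCoveringMap p (FundamentalGroup M m) ∧ SimplyConnectedSpace X ∧
      FaceClosed K ∧ FlagLinks K ∧ Realizes K ι ∧
      FreeCocompactCubical K ι (FundamentalGroup M m) ∧
      g ≠ 1 ∧ IsInfiniteCyclic (stableCentraliser g) ∧ ¬ RankOne X g :=
  main_manifold

end Pool.Agent.Results.MP_b03b3a_al.ClosedManifold
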